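import Pool.Agent.Helper93.FU.Goals

/-!
# Project FU, packet ZA: zero algebras, zero homomorphisms and isomorphisms in the first variable
-/

open scoped ZeroAtInfty BoundedContinuousFunction Topology
open TopologicalSpace Filter

namespace Pool.Agent.Helper66.FU

open Pool.Agent.Helper39.CarDefs Pool.Agent.Helper93.FU

noncomputable section

/-- Two quotient maps with the same kernel. -/
theorem exHom {A F F' : Type} [NonUnitalCStarAlgebra A] [NonUnitalCStarAlgebra F]
    [NonUnitalCStarAlgebra F'] (π : Hom A F) (π' : Hom A F') (hπ : Function.Surjective π)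
    (h : ∀ a, π a = 0 → π' a = 0) : ∃ f : Hom F F', ∀ a, f (π a) = π' a := by
  have key : ∀ a b, π a = π b → π' a = π' b := by
    intro a b hab
    have h1 : π (a - b) = 0 := by rw [map_sub, hab, sub_self]
    have h2 := h _ h1
    rwa [map_sub, sub_eq_zero] at h2
  have hs : ∀ x, π (Function.surjInv hπ x) = x := Function.surjInv_eq hπ
  refine ⟨{ toFun := fun x => π' (Function.surjInv hπ x)
            map_smul' := fun c x => ?_
            map_zero' := ?_
            map_add' := fun x y => ?_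
            map_mul' := fun x y => ?_
            map_star' := fun x => ?_ }, fun a => key _ _ (hs _)⟩
  · change π' (Function.surjInv hπ (c • x)) = c • π' (Function.surjInv hπ x)
    rw [← map_smul]
    refine key _ _ ?_
    rw [hs, map_smul, hs]
  · change π' (Function.surjInv hπ 0) = 0
    rw [← map_zero π']
    refine key _ _ ?_
    rw [hs, map_zero]
  · change π' (Function.surjInv hπ (x + y)) =
      π' (Function.surjInv hπ x) + π' (Function.surjInv hπ y)
    rw [← map_add]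
    refine key _ _ ?_
    rw [hs, map_add, hs, hs]
  · change π' (Function.surjInv hπ (x * y)) =
      π' (Function.surjInv hπ x) * π' (Function.surjInv hπ y)
    rw [← map_mul]
    refine key _ _ ?_
    rw [hs, map_mul, hs, hs]
  · change π' (Function.surjInv hπ (star x)) = star (π' (Function.surjInv hπ x))
    rw [← map_star]
    refine key _ _ ?_
    rw [hs, map_star, hs]

/-- The zero algebra. -/
abbrev Z0 : Type := Fin 0 → ℂ

theorem z0 (a : Z0) : a = 0 := Subsingleton.elim _ _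

section

variable {𝒩 : Cls} {T : Biv} (hT : IsBiv 𝒩 T)
include hT

theorem n_triv (A : Type) [NonUnitalCStarAlgebra A] (hA : ∀ a : A, a = 0) : 𝒩 A := by
  refine hT.cls.ideal A ℂ ℂ (zrH A ℂ) (idH ℂ) ⟨fun x y _ => (hA x).trans (hA y).symm,
    fun x => ⟨x, rfl⟩, fun a => ⟨fun h => ⟨0, h.symm⟩, ?_⟩⟩ hT.cls.scalars
  rintro ⟨x, hx⟩
  exact hx.symm

theorem zero_triv (A : Type) [NonUnitalCStarAlgebra A] (hA : ∀ a : A, a = 0) (B : Type)
    [NonUnitalCStarAlgebra B] : T.Zero A B := by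
  intro i z
  have hn := n_triv hT A hA
  have he : IsExtension (idH A) (idH A) := ⟨fun x y h => h, fun x => ⟨x, rfl⟩,
    fun a => ⟨fun _ => ⟨a, rfl⟩, fun _ => hA a⟩⟩
  have h1 := (hT.sixA i A A A B hn (idH A) (idH A) he).1 z
  have h2 := (hT.functorial.1 i A B hn).1 (idH A) (fun a => rfl)
  rw [h2] at h1
  exact h1.2 ⟨z, h2 z⟩

theorem pull_zero (i : ZMod 2) (A A' B : Type) [NonUnitalCStarAlgebra A]
    [NonUnitalCStarAlgebra A'] [NonUnitalCStarAlgebra B] (hA : 𝒩 A) (hA' : 𝒩 A') (f : Hom A A')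
    (hf : ∀ a, f a = 0) (z : T.G i A' B) : T.pull i B f z = 0 := by
  have h0 := n_triv hT Z0 z0
  have h1 := hT.functorial.2.1 i A Z0 A' B hA h0 hA' (zrH A Z0) (zrH Z0 A') f (fun a => hf a) z
  rw [h1, zero_triv hT Z0 z0 B i (T.pull i B (zrH Z0 A') z), map_zero]

theorem iso_aux (A A' : Type) [NonUnitalCStarAlgebra A] [NonUnitalCStarAlgebra A'] (f : Hom A A')
    (g : Hom A' A) (hA : 𝒩 A) (hA' : 𝒩 A') (hfg : ∀ b, f (g b) = b) (B : Type)
    [NonUnitalCStarAlgebra B] (h : T.Zero A B) : T.Zero A' B := by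
  intro i z
  have h1 := hT.functorial.2.1 i A' A A' B hA' hA hA' g f (idH A') (fun b => (hfg b).symm) z
  have h2 := (hT.functorial.1 i A' B hA').1 (idH A') (fun a => rfl) z
  rw [← h2, h1, h i (T.pull i B f z), map_zero]

theorem iso (A A' : Type) [NonUnitalCStarAlgebra A] [NonUnitalCStarAlgebra A'] (f : Hom A A')
    (hA : 𝒩 A) (hf : Function.Bijective f) : 𝒩 A' ∧ (T.Uct A ↔ T.Uct A') ∧
      ∀ (B : Type) [NonUnitalCStarAlgebra B], T.Zero A B ↔ T.Zero A' B := by
  have hA' : 𝒩 A' := by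
    refine hT.cls.quot Z0 A A' (zrH Z0 A) f ⟨fun x y _ => (z0 x).trans (z0 y).symm, hf.2,
      fun a => ⟨fun h => ⟨0, ?_⟩, ?_⟩⟩ hA
    · refine hf.1 ?_
      rw [h]
      exact map_zero f
    · rintro ⟨x, hx⟩
      rw [← hx]
      exact map_zero f
  obtain ⟨g, hg⟩ := exHom f (idH A) hf.2 fun a h => by
    change a = 0
    refine hf.1 ?_
    rw [h, map_zero]
  have hg' : ∀ a, g (f a) = a := hg
  have hfg : ∀ b, f (g b) = b := by
    intro b
    obtain ⟨a, rfl⟩ := hf.2 b
    rw [hg' a]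
  have h1 : ∀ (B : Type) [NonUnitalCStarAlgebra B], T.Zero A B ↔ T.Zero A' B := fun B _ =>
    ⟨iso_aux hT A A' f g hA hA' hfg B, iso_aux hT A' A g f hA' hA hg' B⟩
  exact ⟨hA', ⟨fun h B _ hr hz => (h1 B).1 (h B hr hz), fun h B _ hr hz => (h1 B).2 (h B hr hz)⟩,
    h1⟩

theorem quot (A F : Type) [NonUnitalCStarAlgebra A] [NonUnitalCStarAlgebra F] (π : Hom A F)
    (hA : 𝒩 A) (hπ : Function.Surjective π) : 𝒩 F := by
  refine hT.cls.quot (kerI π).Sb A F (kerI π).ι π ⟨fun x y h => Subtype.ext h, hπ,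
    fun a => ⟨fun h => ⟨⟨a, h⟩, rfl⟩, ?_⟩⟩ hA
  rintro ⟨x, rfl⟩
  exact x.2

end

theorem gZA : S_ZA := by
  intro 𝒩 T hT
  refine ⟨fun A _ hA => ⟨n_triv hT A hA, fun B _ _ _ => zero_triv hT A hA B,
    fun B _ => zero_triv hT A hA B⟩, fun i A A' B _ _ _ hA hA' f hf z =>
    pull_zero hT i A A' B hA hA' f hf z, fun A A' _ _ f hA hf => iso hT A A' f hA hf, ?_⟩
  intro A F F' _ _ _ π π' hA hπ hπ' hk
  have hF := quot hT A F π hA hπ
  obtain ⟨f, hf⟩ := exHom π π' hπ fun a h => (hk a).1 h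
  have hb : Function.Bijective f := by
    constructor
    · intro x y hxy
      obtain ⟨a, rfl⟩ := hπ x
      obtain ⟨b, rfl⟩ := hπ y
      rw [hf, hf] at hxy
      have h1 : π' (a - b) = 0 := by rw [map_sub, hxy, sub_self]
      have h2 := (hk _).2 h1
      rwa [map_sub, sub_eq_zero] at h2
    · intro y
      obtain ⟨a, rfl⟩ := hπ' y
      exact ⟨π a, hf a⟩
  exact ⟨hF, (iso hT F F' f hF hb).2⟩

end

end Pool.Agent.Helper66.FU
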